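import Mathlib
import Pool.Agent.Y90.S.Jobs
import Pool.Agent.Y265.P.Abs
import Pool.Agent.Y126.JP.Setup

/-!
# Project S4 of helper90: rank one elements, symplectic submodules of dimension `2k`, `k` odd
-/

set_option autoImplicit false
set_option linter.unusedSectionVars false

namespace Pool.Agent.Y454.S4

open Matrix Module Pool.Agent.Y90 Pool.Agent.W437.HC Pool.Agent.W437.HD
open Pool.Agent.W548.Odd

noncomputable section

variable {g : ℕ} {Z : Matrix (Fin g) (Fin g) ℂ} {W : Submodule ℂ (Fin g ⊕ Fin g → ℂ)}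

/-- The operators on `W` given by matrices in `L`. -/
def RH (L : Submodule ℂ (Matrix (Fin g ⊕ Fin g) (Fin g ⊕ Fin g) ℂ))
    (W : Submodule ℂ (Fin g ⊕ Fin g → ℂ)) : Submodule ℂ (End ℂ W) where
  carrier := {y | ∃ X ∈ L, ∀ w : W, ((y w : W) : Fin g ⊕ Fin g → ℂ) = X *ᵥ (w : Fin g ⊕ Fin g → ℂ)}
  zero_mem' := ⟨0, L.zero_mem, fun w => by rw [zero_mulVec]; rfl⟩
  add_mem' := by
    rintro a b ⟨X, hX, ha⟩ ⟨Y, hY, hb⟩
    refine ⟨X + Y, L.add_mem hX hY, fun w => ?_⟩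
    rw [add_mulVec, ← ha, ← hb]
    rfl
  smul_mem' := by
    rintro c a ⟨X, hX, ha⟩
    refine ⟨c • X, L.smul_mem c hX, fun w => ?_⟩
    rw [smul_mulVec, ← ha]
    rfl

theorem mem_RH {L : Submodule ℂ (Matrix (Fin g ⊕ Fin g) (Fin g ⊕ Fin g) ℂ)} {y : End ℂ W} :
    y ∈ RH L W ↔ ∃ X ∈ L, ∀ w : W,
      ((y w : W) : Fin g ⊕ Fin g → ℂ) = X *ᵥ (w : Fin g ⊕ Fin g → ℂ) := Iff.rfl

/-- The restriction of a matrix. -/
def rs (hW : Stab (LZ Z) W) {X : Matrix (Fin g ⊕ Fin g) (Fin g ⊕ Fin g) ℂ} (hX : X ∈ LZ Z) :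
    End ℂ W := (mulVecLin X).restrict (hW X hX)

theorem rs_apply (hW : Stab (LZ Z) W) {X : Matrix (Fin g ⊕ Fin g) (Fin g ⊕ Fin g) ℂ}
    (hX : X ∈ LZ Z) (w : W) :
    ((rs hW hX w : W) : Fin g ⊕ Fin g → ℂ) = X *ᵥ (w : Fin g ⊕ Fin g → ℂ) := rfl

theorem rs_mem (hW : Stab (LZ Z) W) {X : Matrix (Fin g ⊕ Fin g) (Fin g ⊕ Fin g) ℂ}
    (hX : X ∈ LZ Z) : rs hW hX ∈ RH (LZ Z) W := ⟨X, hX, fun _ => rfl⟩

theorem RH_br {y z : End ℂ W} (hy : y ∈ RH (LZ Z) W) (hz : z ∈ RH (LZ Z) W) :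
    y * z - z * y ∈ RH (LZ Z) W := by
  obtain ⟨X, hX, hy⟩ := hy
  obtain ⟨Y, hY, hz⟩ := hz
  refine ⟨X * Y - Y * X, LZ_br hX hY, fun w => ?_⟩
  rw [sub_mulVec, ← mulVec_mulVec, ← mulVec_mulVec, ← hz, ← hy, ← hy, ← hz]
  rfl

/-- The form on `W`. -/
def fm (W : Submodule ℂ (Fin g ⊕ Fin g → ℂ)) (M : Matrix (Fin g ⊕ Fin g) (Fin g ⊕ Fin g) ℂ) :
    W →ₗ[ℂ] W →ₗ[ℂ] ℂ :=
  LinearMap.mk₂ ℂ (fun u v => (u : Fin g ⊕ Fin g → ℂ) ⬝ᵥ (M *ᵥ (v : Fin g ⊕ Fin g → ℂ)))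
    (fun a b c => by rw [Submodule.coe_add, add_dotProduct])
    (fun c a b => by rw [Submodule.coe_smul, smul_dotProduct])
    (fun a b c => by rw [Submodule.coe_add, mulVec_add, dotProduct_add])
    (fun c a b => by rw [Submodule.coe_smul, mulVec_smul, dotProduct_smul])

theorem fm_apply (M : Matrix (Fin g ⊕ Fin g) (Fin g ⊕ Fin g) ℂ) (u v : W) :
    fm W M u v = (u : Fin g ⊕ Fin g → ℂ) ⬝ᵥ (M *ᵥ (v : Fin g ⊕ Fin g → ℂ)) := rfl

theorem fm_anti {M : Matrix (Fin g ⊕ Fin g) (Fin g ⊕ Fin g) ℂ} (hM : Mᵀ = -M) (u v : W) :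
    fm W M u v = -fm W M v u := by
  rw [fm_apply, fm_apply, dotProduct_mulVec, ← mulVec_transpose, hM, neg_mulVec, neg_dotProduct,
    dotProduct_comm]

theorem fm_alt {M : Matrix (Fin g ⊕ Fin g) (Fin g ⊕ Fin g) ℂ} (hM : Mᵀ = -M) (u : W) :
    fm W M u u = 0 := by
  have h := fm_anti hM u u
  have h2 : (2 : ℂ) * fm W M u u = 0 := by linear_combination h
  exact (mul_eq_zero.1 h2).resolve_left two_ne_zero

theorem fm_sp {M : Matrix (Fin g ⊕ Fin g) (Fin g ⊕ Fin g) ℂ}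
    (hinv : ∀ X ∈ LZ Z, Xᵀ * M + M * X = 0) {y : End ℂ W} (hy : y ∈ RH (LZ Z) W) (a b : W) :
    fm W M (y a) b + fm W M a (y b) = 0 := by
  obtain ⟨X, hX, hy⟩ := hy
  rw [fm_apply, fm_apply, hy, hy]
  have h1 : (X *ᵥ (a : Fin g ⊕ Fin g → ℂ)) ⬝ᵥ (M *ᵥ (b : Fin g ⊕ Fin g → ℂ)) =
      (a : Fin g ⊕ Fin g → ℂ) ⬝ᵥ ((Xᵀ * M) *ᵥ (b : Fin g ⊕ Fin g → ℂ)) := by
    rw [← mulVec_mulVec, dotProduct_mulVec (a : Fin g ⊕ Fin g → ℂ), vecMul_transpose]
  rw [h1, mulVec_mulVec, ← dotProduct_add, ← add_mulVec, hinv X hX, zero_mulVec, dotProduct_zero]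

theorem RH_irr (h : PM Z) (hW : IrS (LZ Z) W) (U : Submodule ℂ W)
    (hU : ∀ X ∈ RH (LZ Z) W, X * X = (1 / 4 : ℂ) • 1 → ∀ u ∈ U, X u ∈ U) : U = ⊥ ∨ U = ⊤ := by
  have hst : Stab (LZ Z) (U.map W.subtype) := by
    let L : Submodule ℂ (Matrix (Fin g ⊕ Fin g) (Fin g ⊕ Fin g) ℂ) :=
      { carrier := {X | ∀ u ∈ U.map W.subtype, X *ᵥ u ∈ U.map W.subtype}
        zero_mem' := fun u _ => by rw [zero_mulVec]; exact Submodule.zero_mem _
        add_mem' := fun {a b} ha hb u hu => by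
          rw [add_mulVec]
          exact Submodule.add_mem _ (ha u hu) (hb u hu)
        smul_mem' := fun c a ha u hu => by
          rw [smul_mulVec]
          exact Submodule.smul_mem _ _ (ha u hu) }
    have hL : LZ Z ≤ L := by
      refine LZ_le (fun σ => ?_) ?_
      · rintro _ ⟨u, hu, rfl⟩
        have h1 := hU ((1 / 2 : ℂ) • rs hW.2.1 (DS_mem σ))
          (Submodule.smul_mem _ _ (rs_mem hW.2.1 (DS_mem σ))) (by
            rw [smul_mul_smul_comm]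
            have h2 : rs hW.2.1 (DS_mem (Z := Z) σ) * rs hW.2.1 (DS_mem (Z := Z) σ) = 1 := by
              refine LinearMap.ext fun w => Subtype.ext ?_
              change DS Z σ *ᵥ (DS Z σ *ᵥ (w : Fin g ⊕ Fin g → ℂ)) = w
              rw [mulVec_mulVec, DS_sq h.det, one_mulVec]
            rw [h2]
            norm_num) u hu
        refine ⟨(2 : ℂ) • (((1 / 2 : ℂ) • rs hW.2.1 (DS_mem (Z := Z) σ)) u),
          Submodule.smul_mem _ _ h1, ?_⟩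
        rw [LinearMap.smul_apply, smul_smul]
        norm_num
        rfl
      · intro A hA C hC u hu
        rw [sub_mulVec, ← mulVec_mulVec, ← mulVec_mulVec]
        exact Submodule.sub_mem _ (hA _ (hC u hu)) (hC _ (hA u hu))
    exact fun X hX u hu => hL hX u hu
  rcases hW.2.2 _ (Submodule.map_subtype_le W U) hst with h1 | h1
  · left
    apply Submodule.map_injective_of_injective W.injective_subtype
    rw [h1, Submodule.map_bot]
  · right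
    apply Submodule.map_injective_of_injective W.injective_subtype
    rw [h1, Submodule.map_subtype_top]

theorem map_le_of {N P A Q : Matrix (Fin g ⊕ Fin g) (Fin g ⊕ Fin g) ℂ} (hN : N = P * A * Q)
    (hQ : ∀ w ∈ W, Q *ᵥ w ∈ W) :
    finrank ℂ (W.map (mulVecLin N)) ≤ finrank ℂ (W.map (mulVecLin A)) := by
  have h1 : W.map (mulVecLin N) ≤ (W.map (mulVecLin A)).map (mulVecLin P) := by
    rintro _ ⟨w, hw, rfl⟩
    refine ⟨A *ᵥ (Q *ᵥ w), ⟨Q *ᵥ w, hQ w hw, rfl⟩, ?_⟩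
    rw [mulVecLin_apply, mulVecLin_apply, hN, ← mulVec_mulVec, ← mulVec_mulVec]
  exact (Submodule.finrank_mono h1).trans (Submodule.finrank_map_le _ _)

theorem map_le_rk {A : Matrix (Fin g ⊕ Fin g) (Fin g ⊕ Fin g) ℂ} {e : End ℂ W}
    (he : ∀ w : W, ((e w : W) : Fin g ⊕ Fin g → ℂ) = A *ᵥ (w : Fin g ⊕ Fin g → ℂ)) :
    finrank ℂ (W.map (mulVecLin A)) ≤ rk e := by
  have h1 : W.map (mulVecLin A) ≤ (LinearMap.range e).map W.subtype := by
    rintro _ ⟨w, hw, rfl⟩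
    exact ⟨e ⟨w, hw⟩, ⟨_, rfl⟩, he ⟨w, hw⟩⟩
  exact (Submodule.finrank_mono h1).trans (Submodule.finrank_map_le _ _)

/-- **The symplectic case, dimension `2k` with `k` odd.** -/
theorem jOdd : Pool.Agent.Y90.S.JOdd := by
  intro g Z h M hM hinv W hW hnd k hk hd
  have hbr : ∀ X ∈ RH (LZ Z) W, ∀ Y ∈ RH (LZ Z) W, X * Y - Y * X ∈ RH (LZ Z) W :=
    fun X hX Y hY => RH_br hX hY
  have hsp : ∀ y ∈ RH (LZ Z) W, ∀ a b, fm W M (y a) b + fm W M a (y b) = 0 :=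
    fun y hy a b => fm_sp hinv hy a b
  have hirr := RH_irr h hW
  have halt : ∀ v : W, fm W M v v = 0 := fm_alt hM
  have hndl : ∀ u : W, (∀ v, fm W M u v = 0) → u = 0 := fun u hu =>
    Subtype.ext (hnd u u.2 fun v hv => hu ⟨v, hv⟩)
  have hndr : ∀ w : W, (∀ v, fm W M v w = 0) → w = 0 := fun w hw =>
    hndl w fun v => by rw [fm_anti hM, hw, neg_zero]
  have hset := Pool.Agent.Y126.JP.setup hbr hsp hirr hndl hndr
  have hsc := Pool.Agent.Y126.JP.scal hirr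
  have h4 : ¬ 4 ∣ finrank ℂ W := by
    rw [hd]
    obtain ⟨j, rfl⟩ := hk
    omega
  have hst := hW.2.1
  obtain ⟨D, hDdef⟩ : ∃ D, D = rs hst (DZ_mem (Z := Z)) := ⟨_, rfl⟩
  have hD : D ∈ RH (LZ Z) W := by rw [hDdef]; exact rs_mem _ _
  have hDa : ∀ w : W, ((D w : W) : Fin g ⊕ Fin g → ℂ) = DZ Z *ᵥ (w : Fin g ⊕ Fin g → ℂ) :=
    fun w => by rw [hDdef]; rfl
  have hD2 : D * D = 1 := by
    refine LinearMap.ext fun w => Subtype.ext ?_
    rw [Module.End.mul_apply, hDa, hDa, mulVec_mulVec, DZ_sq h.det, one_mulVec]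
    rfl
  have hI := gn_idl hset hD
  have hgn : RH (LZ Z) W ≤ gn (RH (LZ Z) W) D := by
    let L : Submodule ℂ (Matrix (Fin g ⊕ Fin g) (Fin g ⊕ Fin g) ℂ) :=
      { carrier := {X | ∃ y ∈ gn (RH (LZ Z) W) D, ∀ w : W,
          ((y w : W) : Fin g ⊕ Fin g → ℂ) = X *ᵥ (w : Fin g ⊕ Fin g → ℂ)}
        zero_mem' := ⟨0, Submodule.zero_mem _, fun w => by rw [zero_mulVec]; rfl⟩
        add_mem' := by
          rintro a b ⟨y, hy, ha⟩ ⟨z, hz, hb⟩
          refine ⟨y + z, Submodule.add_mem _ hy hz, fun w => ?_⟩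
          rw [add_mulVec, ← ha, ← hb]
          rfl
        smul_mem' := by
          rintro c a ⟨y, hy, ha⟩
          refine ⟨c • y, Submodule.smul_mem _ c hy, fun w => ?_⟩
          rw [smul_mulVec, ← ha]
          rfl }
    have hL : LZ Z ≤ L := by
      refine LZ_le (fun σ => ?_) ?_
      · have hS2 : rs hst (DS_mem (Z := Z) σ) * rs hst (DS_mem (Z := Z) σ) = 1 := by
          refine LinearMap.ext fun w => Subtype.ext ?_
          change DS Z σ *ᵥ (DS Z σ *ᵥ (w : Fin g ⊕ Fin g → ℂ)) = w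
          rw [mulVec_mulVec, DS_sq h.det, one_mulVec]
        rcases Pool.Agent.Y91.JP.invol_dich hset hsc hI (D := rs hst (DS_mem (Z := Z) σ))
          (rs_mem _ _) hS2 with h1 | h1
        · exact ⟨_, h1, fun w => rfl⟩
        · exact absurd (Pool.Agent.Y265.P.four_dvd hset hsc hD hD2 h1 hS2) h4
      · rintro A ⟨y, hy, ha⟩ C ⟨z, hz, hc⟩
        refine ⟨y * z - z * y, hI.br _ (hI.le hy) _ hz, fun w => ?_⟩
        rw [sub_mulVec, ← mulVec_mulVec, ← mulVec_mulVec, ← hc, ← ha, ← ha, ← hc]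
        rfl
    rintro y ⟨X, hX, hy⟩
    obtain ⟨z, hz, hzX⟩ := hL hX
    have h1 : y = z := LinearMap.ext fun w => Subtype.ext (by rw [hy, hzX])
    rw [h1]
    exact hz
  obtain ⟨e, he, he1⟩ := Pool.Agent.Y265.P.rank_one_four hset hsc
    (Pool.Agent.Y126.JP.altF_adj halt hndr) (Pool.Agent.Y126.JP.adj_trace hndr) hD hD2 hgn h4
  obtain ⟨A, hA, heA⟩ := he
  have hrk := map_le_rk heA
  rw [he1] at hrk
  have hQ1 : ∀ w ∈ W, (1 - DZ Z) *ᵥ w ∈ W := fun w hw => by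
    rw [sub_mulVec, one_mulVec]
    exact W.sub_mem hw (hst _ DZ_mem w hw)
  have hQ2 : ∀ w ∈ W, (1 + DZ Z) *ᵥ w ∈ W := fun w hw => by
    rw [add_mulVec, one_mulVec]
    exact W.add_mem hw (hst _ DZ_mem w hw)
  by_cases hp : ∃ u ∈ W, ((1 / 4 : ℂ) • ((1 + DZ Z) * A * (1 - DZ Z))) *ᵥ u ≠ 0
  · refine ⟨DZ Z, Or.inl rfl, _, up_mem h hA, up_l h A, up_r h A, ?_⟩
    have h1 := map_rank_ne hp
    have h2 := map_le_of (W := W) (N := (1 / 4 : ℂ) • ((1 + DZ Z) * A * (1 - DZ Z)))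
      (P := (1 / 4 : ℂ) • (1 + DZ Z)) (A := A) (Q := 1 - DZ Z)
      (by rw [smul_mul_assoc, smul_mul_assoc]) hQ1
    omega
  by_cases hq : ∃ u ∈ W, ((1 / 4 : ℂ) • ((1 - DZ Z) * A * (1 + DZ Z))) *ᵥ u ≠ 0
  · refine ⟨-DZ Z, Or.inr rfl, _, dn_mem h hA, ?_, ?_, ?_⟩
    · rw [neg_mul, dn_l h, neg_neg]
    · rw [mul_neg, dn_r h]
    · have h1 := map_rank_ne hq
      have h2 := map_le_of (W := W) (N := (1 / 4 : ℂ) • ((1 - DZ Z) * A * (1 + DZ Z)))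
        (P := (1 / 4 : ℂ) • (1 - DZ Z)) (A := A) (Q := 1 + DZ Z)
        (by rw [smul_mul_assoc, smul_mul_assoc]) hQ2
      omega
  exfalso
  push Not at hp hq
  have hcomm : D * e = e * D := by
    refine LinearMap.ext fun w => Subtype.ext ?_
    rw [Module.End.mul_apply, Module.End.mul_apply, hDa, heA, heA, hDa, mulVec_mulVec,
      mulVec_mulVec]
    have h5 := hp w w.2
    have h6 := hq w w.2
    have h8 : DZ Z * A - A * DZ Z = (2 : ℂ) • ((1 / 4 : ℂ) • ((1 + DZ Z) * A * (1 - DZ Z))) -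
        (2 : ℂ) • ((1 / 4 : ℂ) • ((1 - DZ Z) * A * (1 + DZ Z))) := by
      have h9 : (1 + DZ Z) * A * (1 - DZ Z) - (1 - DZ Z) * A * (1 + DZ Z) =
          (2 : ℂ) • (DZ Z * A - A * DZ Z) := by
        rw [two_smul]
        noncomm_ring
      rw [← smul_sub, ← smul_sub, h9, smul_smul, smul_smul]
      norm_num
    have h10 : (DZ Z * A - A * DZ Z) *ᵥ (w : Fin g ⊕ Fin g → ℂ) = 0 := by
      rw [h8, sub_mulVec, smul_mulVec, smul_mulVec (2 : ℂ), h5, h6, smul_zero, sub_zero]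
    rw [sub_mulVec] at h10
    exact sub_eq_zero.1 h10
  have h9 := hset.even_of_commute (ε := 1) (D := D) (N := e)
    ⟨fun y _ => by rw [one_mul, mul_one], by rw [one_mul], Pool.Agent.Y91.JP.st_one hset hD hD2⟩ hD hD2
    ⟨A, hA, heA⟩ hcomm
  rw [one_mul, he1] at h9
  exact absurd h9 (by decide)

end

end Pool.Agent.Y454.S4
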